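import Pool.Agent.Work.MP_433a35_co.FT.Run

set_option autoImplicit false
set_option linter.unusedSectionVars false

/-!
# The fractional strong chromatic index is at most `(4/3) Δ²` (MP_433a35_co)
-/

namespace MP433.FT

open Finset

noncomputable section

variable {V : Type*} [Fintype V] [DecidableEq V] {G : SimpleGraph V} [DecidableRel G.Adj]

lemma card_dead_le {D : ℕ} (hD : ∀ v, G.degree v ≤ D) (R : Finset V) (x : V) :
    (univ.filter fun v => G.Adj x v ∧ v ∉ R).card + (nbR G R x).card ≤ D := by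
  refine le_trans (le_of_eq ?_) (hD x)
  rw [← SimpleGraph.card_neighborFinset_eq_degree]
  rw [← card_union_of_disjoint]
  · congr 1
    ext v
    simp only [nbR, mem_union, mem_filter, mem_univ, true_and, SimpleGraph.mem_neighborFinset]
    tauto
  · rw [disjoint_left]
    intro v hv hv2
    exact (mem_filter.1 hv).2.2 (mem_filter.1 hv2).1

lemma card_dd_le {D : ℕ} (hD : ∀ v, G.degree v ≤ D) (R : Finset V) (x y : V) :
    (dd G R x y).card + (nbR G R x).card + (nbR G R y).card ≤ 2 * D := by
  have h1 := card_dead_le hD R x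
  have h2 := card_dead_le hD R y
  have h3 : (dd G R x y).card ≤ (univ.filter fun v => G.Adj x v ∧ v ∉ R).card +
      (univ.filter fun v => G.Adj y v ∧ v ∉ R).card := by
    refine le_trans (card_le_card ?_) (card_union_le _ _)
    intro v hv
    simp only [dd, mem_filter, mem_univ, true_and] at hv
    simp only [mem_union, mem_filter, mem_univ, true_and]
    tauto
  omega

lemma dd_comm (R : Finset V) (x y : V) : dd G R x y = dd G R y x := by
  unfold dd
  refine filter_congr fun v _ => ?_
  rw [or_comm]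

lemma h_le_om {D : ℕ} (hD : ∀ v, G.degree v ≤ D) (R : Finset V) (x y : V) (k : ℕ) :
    h (nbR G R x).card (k + (nbR G R x).card + (nbR G R y).card - D) ≤
      om G ((D : ℝ) + k) R x y := by
  unfold h om
  refine min_le_min_left 1 (div_le_div_of_nonneg_right ?_ (Nat.cast_nonneg _))
  have h1 := card_dd_le hD R x y
  set I := (nbR G R x).card
  set J := (nbR G R y).card
  set d := (dd G R x y).card
  rcases Nat.le_total D (k + I + J) with h2 | h2
  · refine le_trans ?_ (le_max_right _ _)
    rw [Nat.cast_sub h2]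
    have h3 : (d : ℝ) + I + J ≤ 2 * D := by exact_mod_cast h1
    push_cast
    linarith
  · rw [Nat.sub_eq_zero_of_le h2]
    simp

/-- The guaranteed coverage, summed over the types with their multiplicities, is at least `1`. -/
theorem one_le_sum_C {D : ℕ} (hD : ∀ v, G.degree v ≤ D) (n : ℕ) :
    ∀ R : Finset V, R.card ≤ n → ∀ x ∈ R, ∀ y ∈ R, G.Adj x y →
      1 ≤ ∑ k ∈ range (D + 1), mult D k * C G ((D : ℝ) + k) n R x y := by
  induction n with
  | zero =>
    intro R hR x hx
    have : R = ∅ := card_eq_zero.1 (Nat.le_zero.1 hR)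
    rw [this] at hx
    simp at hx
  | succ n ih =>
    intro R hR x hx y hy hxy
    have hcpos : (0 : ℝ) < R.card := by exact_mod_cast card_pos.2 ⟨x, hx⟩
    set U := R.filter (fun u => ¬ G.Adj x u ∧ ¬ G.Adj y u) with hU
    have h1 : ∑ k ∈ range (D + 1), mult D k * C G ((D : ℝ) + k) (n + 1) R x y =
        (∑ k ∈ range (D + 1), mult D k * (om G ((D : ℝ) + k) R x y + om G ((D : ℝ) + k) R y x) +
          ∑ u ∈ U, ∑ k ∈ range (D + 1), mult D k * C G ((D : ℝ) + k) n (nxt G R u) x y) /
          R.card := by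
      rw [sum_comm, ← sum_add_distrib, sum_div]
      refine sum_congr rfl fun k _ => ?_
      simp only [C]
      rw [← hU, ← mul_sum]
      ring
    rw [h1, le_div_iff₀ hcpos, one_mul]
    -- the two orientations
    have hI : 0 < (nbR G R x).card := card_pos.2 ⟨y, mem_filter.2 ⟨hy, hxy⟩⟩
    have hJ : 0 < (nbR G R y).card := card_pos.2 ⟨x, mem_filter.2 ⟨hx, hxy.symm⟩⟩
    have hID : (nbR G R x).card ≤ D := le_trans (Nat.le_add_left _ _) (card_dead_le hD R x)
    have hJD : (nbR G R y).card ≤ D := le_trans (Nat.le_add_left _ _) (card_dead_le hD R y)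
    have h2 : ((nbR G R x).card : ℝ) + (nbR G R y).card ≤ ∑ k ∈ range (D + 1),
        mult D k * (om G ((D : ℝ) + k) R x y + om G ((D : ℝ) + k) R y x) := by
      refine le_trans (key hI hJ hID hJD) (sum_le_sum fun k _ => ?_)
      refine mul_le_mul_of_nonneg_left (add_le_add (h_le_om hD R x y k) ?_) (mult_nonneg D k)
      have h3 := h_le_om hD R y x k
      rw [show k + (nbR G R y).card + (nbR G R x).card - D =
        k + (nbR G R x).card + (nbR G R y).card - D by omega] at h3
      exact h3
    -- the untouched part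
    have h3 : (U.card : ℝ) ≤ ∑ u ∈ U, ∑ k ∈ range (D + 1),
        mult D k * C G ((D : ℝ) + k) n (nxt G R u) x y := by
      have h4 : ∑ _u ∈ U, (1 : ℝ) ≤ ∑ u ∈ U, ∑ k ∈ range (D + 1),
          mult D k * C G ((D : ℝ) + k) n (nxt G R u) x y := by
        refine sum_le_sum fun u hu => ?_
        obtain ⟨huR, h5, h6⟩ := mem_filter.1 hu
        refine ih (nxt G R u) (by have := card_nxt_lt (G := G) huR; omega) x ?_ y ?_ hxy
        · exact mem_filter.2 ⟨hx, fun h => h6 (h ▸ hxy.symm), fun h => h5 h.symm⟩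
        · exact mem_filter.2 ⟨hy, fun h => h5 (h ▸ hxy), fun h => h6 h.symm⟩
      simpa using h4
    have h4 : R.card ≤ (nbR G R x).card + (nbR G R y).card + U.card := by
      have h5 : R ⊆ (nbR G R x ∪ nbR G R y) ∪ U := by
        intro u hu
        simp only [nbR, hU, mem_union, mem_filter]
        tauto
      refine le_trans (card_le_card h5) (le_trans (card_union_le _ _) ?_)
      exact Nat.add_le_add_right (card_union_le _ _) _
    have h5 : (R.card : ℝ) ≤ (nbR G R x).card + (nbR G R y).card + U.card := by exact_mod_cast h4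
    linarith

/-- Trimming the coverage to exactly `1`. -/
lemma trim (S : Finset (Sym2 V)) (μ : Finset (Sym2 V) → ℝ) (h0 : ∀ M, 0 ≤ μ M)
    (hs : ∀ M, μ M ≠ 0 → SM G M) (hS : ∀ e ∈ S, 1 ≤ cov μ e) :
    ∃ μ' : Finset (Sym2 V) → ℝ, (∀ M, 0 ≤ μ' M) ∧ (∀ M, μ' M ≠ 0 → SM G M) ∧
      ∑ M, μ' M = ∑ M, μ M ∧ (∀ e ∈ S, cov μ' e = 1) ∧ ∀ e, e ∉ S → cov μ' e = cov μ e := by
  induction S using Finset.induction_on with
  | empty => exact ⟨μ, h0, hs, rfl, by simp, fun _ _ => rfl⟩
  | insert e S heS ih =>
    obtain ⟨ν, h1, h2, h3, h4, h5⟩ := ih fun f hf => hS f (mem_insert_of_mem hf)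
    have hc : 1 ≤ cov ν e := by rw [h5 e heS]; exact hS e (mem_insert_self _ _)
    have hc0 : 0 < cov ν e := lt_of_lt_of_le one_pos hc
    set t : ℝ := 1 - 1 / cov ν e with ht
    have ht0 : 0 ≤ t := by
      have : 1 / cov ν e ≤ 1 := by rw [div_le_one hc0]; exact hc
      rw [ht]; linarith
    have ht1 : t ≤ 1 := by
      have : 0 ≤ 1 / cov ν e := by positivity
      rw [ht]; linarith
    refine ⟨upd ν (fun _ => t) (fun M => M.erase e), ?_, ?_, ?_, ?_, ?_⟩
    · exact upd_nonneg h1 (fun _ => ht0) fun _ => ht1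
    · intro N hN
      obtain ⟨M, hM, h6⟩ := upd_ne_zero hN
      rcases h6 with rfl | ⟨_, rfl⟩
      · exact h2 _ hM
      · have h7 := h2 M hM
        exact ⟨fun f hf => h7.1 f (mem_of_mem_erase hf), fun f hf f' hf' =>
          h7.2 f (mem_of_mem_erase hf) f' (mem_of_mem_erase hf')⟩
    · have h6 := upd_sum ν (fun _ => t) (fun M => M.erase e) (fun _ => 1)
      simp only [mul_one] at h6
      rw [h6, ← h3]
      exact sum_congr rfl fun M _ => by ring
    · intro f hf
      rcases mem_insert.1 hf with rfl | hf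
      · unfold cov
        rw [upd_sum]
        have h6 : ∑ M, ν M * ((1 - t) * ind (f ∈ M) + t * ind (f ∈ M.erase f)) =
            (1 - t) * cov ν f := by
          unfold cov
          rw [mul_sum]
          refine sum_congr rfl fun M _ => ?_
          rw [ind_false (notMem_erase f M)]
          ring
        rw [h6, ht]
        field_simp
        ring
      · have hfe : f ≠ e := fun h => heS (h ▸ hf)
        rw [← h4 f hf]
        unfold cov
        rw [upd_sum]
        refine sum_congr rfl fun M _ => ?_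
        rw [ind_congr (show f ∈ M.erase e ↔ f ∈ M from
          ⟨mem_of_mem_erase, fun h => mem_erase.2 ⟨hfe, h⟩⟩)]
        ring
    · intro f hf
      have hfe : f ≠ e := fun h => hf (h ▸ mem_insert_self _ _)
      have hfS : f ∉ S := fun h => hf (mem_insert_of_mem h)
      rw [← h5 f hfS]
      unfold cov
      rw [upd_sum]
      refine sum_congr rfl fun M _ => ?_
      rw [ind_congr (show f ∈ M.erase e ↔ f ∈ M from
        ⟨mem_of_mem_erase, fun h => mem_erase.2 ⟨hfe, h⟩⟩)]
      ring

/-- **The fractional strong chromatic index is at most `(4/3) D²`.** -/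
theorem frac_four_thirds (D : ℕ) (hD : ∀ v, G.degree v ≤ D) :
    ∃ μ : Finset (Sym2 V) → ℝ, (∀ M, 0 ≤ μ M) ∧ (∀ M, μ M ≠ 0 → SM G M) ∧
      (∀ e ∈ G.edgeSet, cov μ e = 1) ∧ ∑ M, μ M = 4 / 3 * (D : ℝ) ^ 2 := by
  classical
  have hex : ∀ k : ℕ, ∃ μ' : Finset (Sym2 V) → ℝ, (∀ M, 0 ≤ μ' M) ∧ (∀ M, μ' M ≠ 0 → SM G M) ∧
      ∑ M, μ' M = (D : ℝ) + k ∧
      ∀ x y, G.Adj x y → C G ((D : ℝ) + k) (Fintype.card V) univ x y ≤ cov μ' s(x, y) := by
    intro k
    have hI : Inv G ((D : ℝ) + k) univ
        (fun M : Finset (Sym2 V) => if M = ∅ then (D : ℝ) + k else 0) := by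
      refine ⟨?_, ?_, ?_, ?_, ?_⟩
      · intro M
        split_ifs
        · positivity
        · exact le_rfl
      · intro M hM
        have : M = ∅ := by by_contra h; exact hM (if_neg h)
        subst this
        exact ⟨by simp, by simp⟩
      · intro M hM v hv
        have : M = ∅ := by by_contra h; exact hM (if_neg h)
        subst this
        obtain ⟨e, he, _⟩ := hv
        simp at he
      · intro v hv
        exact absurd (mem_univ v) hv
      · rw [sum_ite_eq']
        simp
    obtain ⟨μ', h1, h2, h3, _, h5⟩ := run ((D : ℝ) + k) (Fintype.card V) univ _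
      (by rw [card_univ]) hI
    exact ⟨μ', h1, h2, h3, fun x y hxy => h5 x (mem_univ _) y (mem_univ _) hxy⟩
  choose F hF1 hF2 hF3 hF4 using hex
  set μ : Finset (Sym2 V) → ℝ := fun M => ∑ k ∈ range (D + 1), mult D k * F k M with hμ
  have hμs : ∀ f : Finset (Sym2 V) → ℝ, ∑ M, μ M * f M =
      ∑ k ∈ range (D + 1), mult D k * ∑ M, F k M * f M := by
    intro f
    simp only [hμ, sum_mul, mul_sum]
    rw [sum_comm]
    exact sum_congr rfl fun k _ => sum_congr rfl fun M _ => by ring
  have hμ0 : ∀ M, 0 ≤ μ M := fun M => sum_nonneg fun k _ =>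
    mul_nonneg (mult_nonneg D k) (hF1 k M)
  have hμ1 : ∀ M, μ M ≠ 0 → SM G M := by
    intro M hM
    obtain ⟨k, _, hk⟩ := exists_ne_zero_of_sum_ne_zero hM
    exact hF2 k M (right_ne_zero_of_mul hk)
  have hμc : ∀ e ∈ G.edgeFinset, 1 ≤ cov μ e := by
    intro e he
    rw [SimpleGraph.mem_edgeFinset] at he
    induction e using Sym2.inductionOn with
    | hf x y =>
      have hxy : G.Adj x y := he
      unfold cov
      rw [hμs]
      refine le_trans (one_le_sum_C hD (Fintype.card V) univ (by rw [card_univ]) x (mem_univ _)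
        y (mem_univ _) hxy) (sum_le_sum fun k _ => ?_)
      exact mul_le_mul_of_nonneg_left (hF4 k x y hxy) (mult_nonneg D k)
  obtain ⟨ν, h1, h2, h3, h4, _⟩ := trim G.edgeFinset μ hμ0 hμ1 hμc
  refine ⟨ν, h1, h2, fun e he => h4 e (SimpleGraph.mem_edgeFinset.2 he), ?_⟩
  rw [h3]
  have h5 := hμs (fun _ => 1)
  simp only [mul_one] at h5
  rw [h5]
  simp only [hF3]
  exact sum_mult_cost D

end

end MP433.FT
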