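import Mathlib

set_option autoImplicit false

/-!
# The numerical identity behind `4/3` (MP_433a35_co)

`h I t = min 1 (t / I)` for natural numbers. The types `k = 0, …, D` have multiplicities
`(D + 1) / 3, 2 / 3, …, 2 / 3, 1 / 3`.
-/

namespace MP433.FT

open Finset

noncomputable section

/-- multiplicity of the type `k` -/
def mult (D k : ℕ) : ℝ :=
  (if k = 0 then (D : ℝ) / 3 else 0) + ((if k < D then 1 / 3 else 0) + (if 0 < k then 1 / 3 else 0))

lemma mult_nonneg (D k : ℕ) : 0 ≤ mult D k := by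
  unfold mult
  have : (0 : ℝ) ≤ (D : ℝ) / 3 := by positivity
  split_ifs <;> linarith

/-- Summation against the multiplicities. -/
lemma sum_mult (D : ℕ) (f : ℕ → ℝ) :
    ∑ k ∈ range (D + 1), mult D k * f k =
      (D : ℝ) / 3 * f 0 + 1 / 3 * ∑ k ∈ range D, (f k + f (k + 1)) := by
  have h1 : ∑ k ∈ range (D + 1), (if k = 0 then (D : ℝ) / 3 else 0) * f k =
      (D : ℝ) / 3 * f 0 := by
    rw [sum_eq_single 0]
    · simp
    · intro k _ hk; simp [hk]
    · intro h; simp at h
  have h2 : ∑ k ∈ range (D + 1), (if k < D then (1 / 3 : ℝ) else 0) * f k =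
      1 / 3 * ∑ k ∈ range D, f k := by
    rw [sum_range_succ, mul_sum]
    simp only [lt_irrefl, if_false, zero_mul, add_zero]
    refine sum_congr rfl fun k hk => ?_
    rw [if_pos (mem_range.1 hk)]
  have h3 : ∑ k ∈ range (D + 1), (if 0 < k then (1 / 3 : ℝ) else 0) * f k =
      1 / 3 * ∑ k ∈ range D, f (k + 1) := by
    rw [sum_range_succ', mul_sum]
    simp
  simp only [mult, add_mul, sum_add_distrib]
  rw [h1, h2, h3]
  ring

lemma sum_mult_cost (D : ℕ) :
    ∑ k ∈ range (D + 1), mult D k * ((D : ℝ) + k) = 4 / 3 * (D : ℝ) ^ 2 := by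
  rw [sum_mult]
  have h1 : ∀ n : ℕ, ∑ k ∈ range n, (((D : ℝ) + (k : ℝ)) + ((D : ℝ) + ((k + 1 : ℕ) : ℝ))) =
      2 * (D : ℝ) * n + (n : ℝ) ^ 2 := by
    intro n
    induction n with
    | zero => simp
    | succ n ih => rw [sum_range_succ, ih]; push_cast; ring
  rw [h1 D]
  push_cast
  ring

/-- the weight function -/
def h (I : ℕ) (t : ℕ) : ℝ := min 1 ((t : ℝ) / I)

lemma h_zero (I : ℕ) : h I 0 = 0 := by simp [h]

lemma h_of_le {I t : ℕ} (hI : 0 < I) (ht : t ≤ I) : h I t = (t : ℝ) / I := by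
  unfold h
  have : (0 : ℝ) < I := by exact_mod_cast hI
  rw [min_eq_right]
  rw [div_le_one this]
  exact_mod_cast ht

lemma h_of_ge {I t : ℕ} (hI : 0 < I) (ht : I ≤ t) : h I t = 1 := by
  unfold h
  have : (0 : ℝ) < I := by exact_mod_cast hI
  rw [min_eq_left]
  rw [le_div_iff₀ this, one_mul]
  exact_mod_cast ht

lemma prim_le {I : ℕ} (hI : 0 < I) {t : ℕ} (ht : t ≤ I) :
    ∑ j ∈ range t, (h I j + h I (j + 1)) = (t : ℝ) ^ 2 / I := by
  induction t with
  | zero => simp
  | succ t ih =>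
    have h0 : (I : ℝ) ≠ 0 := by exact_mod_cast hI.ne'
    rw [sum_range_succ, ih (by omega), h_of_le hI (by omega), h_of_le hI ht]
    push_cast
    field_simp
    ring

lemma prim_ge {I : ℕ} (hI : 0 < I) {t : ℕ} (ht : I ≤ t) :
    ∑ j ∈ range t, (h I j + h I (j + 1)) = 2 * (t : ℝ) - I := by
  induction t, ht using Nat.le_induction with
  | base =>
    have h0 : (I : ℝ) ≠ 0 := by exact_mod_cast hI.ne'
    rw [prim_le hI le_rfl]
    field_simp
    ring
  | succ t ht ih =>
    rw [sum_range_succ, ih, h_of_ge hI ht, h_of_ge hI (by omega)]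
    push_cast
    ring

/-- One side, for `D ≤ I + J`. -/
lemma side_ge {D I J s : ℕ} (hI : 0 < I) (hJD : J ≤ D) (hs : I + J = D + s) :
    (D : ℝ) / 3 * h I (0 + s) + 1 / 3 * ∑ k ∈ range D, (h I (k + s) + h I (k + 1 + s)) =
      1 / 3 * (I + 2 * J + (s : ℝ) * (D - s) / I) := by
  have h0 : (I : ℝ) ≠ 0 := by exact_mod_cast hI.ne'
  have hsI : s ≤ I := by omega
  have h1 : ∑ k ∈ range D, (h I (k + s) + h I (k + 1 + s)) =
      2 * ((s + D : ℕ) : ℝ) - I - (s : ℝ) ^ 2 / I := by
    have h2 := prim_ge hI (t := s + D) (by omega)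
    rw [sum_range_add, prim_le hI hsI] at h2
    have h3 : ∑ k ∈ range D, (h I (k + s) + h I (k + 1 + s)) =
        ∑ k ∈ range D, (h I (s + k) + h I (s + k + 1)) := by
      refine sum_congr rfl fun k _ => ?_
      rw [add_comm k s, show k + 1 + s = s + k + 1 by omega]
    rw [h3]
    linarith
  rw [h1, zero_add, h_of_le hI hsI]
  have h4 : ((s + D : ℕ) : ℝ) = (I : ℝ) + J := by
    have : s + D = I + J := by omega
    rw [this]; push_cast; ring
  rw [h4]
  field_simp
  ring

/-- One side, for `I + J ≤ D`. -/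
lemma side_le {D I J m : ℕ} (hI : 0 < I) (hm : D = I + J + m) :
    (D : ℝ) / 3 * h I (0 - m) + 1 / 3 * ∑ k ∈ range D, (h I (k - m) + h I (k + 1 - m)) =
      1 / 3 * (I + 2 * J) := by
  have h1 : ∑ k ∈ range D, (h I (k - m) + h I (k + 1 - m)) = (I : ℝ) + 2 * J := by
    rw [show D = m + (I + J) by omega, sum_range_add]
    have h2 : ∑ k ∈ range m, (h I (k - m) + h I (k + 1 - m)) = 0 := by
      refine sum_eq_zero fun k hk => ?_
      have hk' := mem_range.1 hk
      rw [show k - m = 0 by omega, show k + 1 - m = 0 by omega, h_zero]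
      simp
    have h3 : ∑ k ∈ range (I + J), (h I (m + k - m) + h I (m + k + 1 - m)) =
        ∑ k ∈ range (I + J), (h I k + h I (k + 1)) := by
      refine sum_congr rfl fun k _ => ?_
      rw [show m + k - m = k by omega, show m + k + 1 - m = k + 1 by omega]
    rw [h2, h3, prim_ge hI (by omega)]
    push_cast
    ring
  rw [h1, Nat.zero_sub, h_zero]
  ring

/-- **The key inequality**, in natural numbers. -/
theorem key {D I J : ℕ} (hI : 0 < I) (hJ : 0 < J) (hID : I ≤ D) (hJD : J ≤ D) :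
    (I : ℝ) + J ≤ ∑ k ∈ range (D + 1), mult D k * (h I (k + I + J - D) + h J (k + I + J - D)) := by
  have hsum : ∑ k ∈ range (D + 1), mult D k * (h I (k + I + J - D) + h J (k + I + J - D)) =
      ((D : ℝ) / 3 * h I (0 + I + J - D) + 1 / 3 * ∑ k ∈ range D,
        (h I (k + I + J - D) + h I (k + 1 + I + J - D))) +
      ((D : ℝ) / 3 * h J (0 + I + J - D) + 1 / 3 * ∑ k ∈ range D,
        (h J (k + I + J - D) + h J (k + 1 + I + J - D))) := by
    have h1 := sum_mult D (fun k => h I (k + I + J - D))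
    have h2 := sum_mult D (fun k => h J (k + I + J - D))
    rw [← h1, ← h2, ← sum_add_distrib]
    exact sum_congr rfl fun k _ => by ring
  rw [hsum]
  rcases Nat.le_total D (I + J) with hc | hc
  · obtain ⟨s, hs⟩ := Nat.exists_eq_add_of_le hc
    have e : ∀ k : ℕ, k + I + J - D = k + s := fun k => by omega
    have e1 : ∀ k : ℕ, k + 1 + I + J - D = k + 1 + s := fun k => by omega
    simp only [e, e1]
    rw [side_ge hI hJD hs, side_ge (I := J) (J := I) hJ hID (by omega)]
    have hIr : (0 : ℝ) < I := by exact_mod_cast hI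
    have hJr : (0 : ℝ) < J := by exact_mod_cast hJ
    have hsD : (0 : ℝ) ≤ (s : ℝ) * ((D : ℝ) - s) := by
      refine mul_nonneg (Nat.cast_nonneg _) ?_
      have : s ≤ D := by omega
      have : (s : ℝ) ≤ D := by exact_mod_cast this
      linarith
    have h1 : 0 ≤ (s : ℝ) * ((D : ℝ) - s) / I := div_nonneg hsD hIr.le
    have h2 : 0 ≤ (s : ℝ) * ((D : ℝ) - s) / J := div_nonneg hsD hJr.le
    linarith
  · obtain ⟨m, hm⟩ := Nat.exists_eq_add_of_le hc
    have e : ∀ k : ℕ, k + I + J - D = k - m := fun k => by omega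
    have e1 : ∀ k : ℕ, k + 1 + I + J - D = k + 1 - m := fun k => by omega
    simp only [e, e1]
    rw [side_le hI hm, side_le (I := J) (J := I) hJ (by omega)]
    linarith

end

end MP433.FT
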