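import Pool.Agent.Work.MP_433a35_co.FT.Upd
import Pool.Agent.Work.MP_433a35_co.FT.Ineq

set_option autoImplicit false
set_option linter.unusedSectionVars false

/-!
# The greedy process and the fractional colouring it produces (MP_433a35_co)

`R` is the set of the vertices that are alive. A vertex `x` of `R` is picked, its live neighbours
`y` are captured, and every captured edge `xy` receives the weight `om`. The mass distribution `μ`
lives on strong matchings.
-/

namespace MP433.FT

open Finset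

noncomputable section

variable {V : Type*} [Fintype V] [DecidableEq V] (G : SimpleGraph V) [DecidableRel G.Adj]

/-- strong (induced) matchings -/
def SM (M : Finset (Sym2 V)) : Prop :=
  (∀ e ∈ M, e ∈ G.edgeSet) ∧
    ∀ e ∈ M, ∀ e' ∈ M, e ≠ e' → ∀ x ∈ e, ∀ y ∈ e', x ≠ y ∧ ¬ G.Adj x y

/-- `v` is covered by `M` -/
def vtx (M : Finset (Sym2 V)) (v : V) : Prop := ∃ e ∈ M, v ∈ e

/-- weight of the sets that contain `e` -/
def cov (μ : Finset (Sym2 V) → ℝ) (e : Sym2 V) : ℝ := ∑ M, μ M * ind (e ∈ M)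

/-- weight of the sets that cover `v` -/
def vcov (μ : Finset (Sym2 V) → ℝ) (v : V) : ℝ := ∑ M, μ M * ind (vtx M v)

/-- dead vertices adjacent to `x` or `y` -/
def dd (R : Finset V) (x y : V) : Finset V :=
  univ.filter fun v => (G.Adj x v ∨ G.Adj y v) ∧ v ∉ R

/-- live neighbours -/
def nbR (R : Finset V) (x : V) : Finset V := R.filter fun v => G.Adj x v

/-- the weight of the captured edge `xy` -/
def om (Q : ℝ) (R : Finset V) (x y : V) : ℝ :=
  min 1 (max 0 (Q - (dd G R x y).card) / (nbR G R x).card)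

/-- the next live set -/
def nxt (R : Finset V) (x : V) : Finset V := R.filter fun v => v ≠ x ∧ ¬ G.Adj x v

/-- `M` does not conflict with `xy` -/
def nc (M : Finset (Sym2 V)) (x y : V) : Prop := ∀ v, vtx M v → ¬ (G.Adj x v ∨ G.Adj y v)

/-- The invariants of the process. -/
structure Inv (Q : ℝ) (R : Finset V) (μ : Finset (Sym2 V) → ℝ) : Prop where
  nonneg : ∀ M, 0 ≤ μ M
  supp : ∀ M, μ M ≠ 0 → SM G M
  dead : ∀ M, μ M ≠ 0 → ∀ v, vtx M v → v ∉ R
  cap : ∀ v, v ∉ R → (∃ u ∈ R, G.Adj v u) → vcov μ v ≤ 1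
  tot : ∑ M, μ M = Q

lemma om_nonneg (Q : ℝ) (R : Finset V) (x y : V) : 0 ≤ om G Q R x y :=
  le_min zero_le_one (div_nonneg (le_max_left _ _) (Nat.cast_nonneg _))

lemma om_le_one (Q : ℝ) (R : Finset V) (x y : V) : om G Q R x y ≤ 1 := min_le_left _ _

variable {G}

lemma Inv.nc_mass {Q : ℝ} {R : Finset V} {μ : Finset (Sym2 V) → ℝ} (hI : Inv G Q R μ) {x y : V}
    (hx : x ∈ R) (hy : y ∈ R) :
    Q - (dd G R x y).card ≤ ∑ M, μ M * ind (nc G M x y) := by
  have h1 : Q = ∑ M, μ M * ind (nc G M x y) + ∑ M, μ M * ind (¬ nc G M x y) := by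
    rw [← sum_add_distrib, ← hI.tot]
    refine sum_congr rfl fun M _ => ?_
    by_cases h : nc G M x y
    · rw [ind_true h, ind_false (not_not.2 h)]; ring
    · rw [ind_false h, ind_true h]; ring
  have h2 : ∑ M, μ M * ind (¬ nc G M x y) ≤ ((dd G R x y).card : ℝ) := by
    calc ∑ M, μ M * ind (¬ nc G M x y)
        ≤ ∑ M, ∑ v ∈ dd G R x y, μ M * ind (vtx M v) := by
          refine sum_le_sum fun M _ => ?_
          by_cases h0 : μ M = 0
          · simp [h0]
          by_cases h : nc G M x y
          · rw [ind_false (not_not.2 h), mul_zero]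
            exact sum_nonneg fun v _ => mul_nonneg (hI.nonneg M) (ind_nonneg _)
          · rw [ind_true h, mul_one]
            unfold nc at h
            push Not at h
            obtain ⟨v, hv, hadj⟩ := h
            have hvR := hI.dead M h0 v hv
            have hvd : v ∈ dd G R x y := by
              simp only [dd, mem_filter, mem_univ, true_and]
              exact ⟨hadj, hvR⟩
            have h3 := single_le_sum (s := dd G R x y) (f := fun v => μ M * ind (vtx M v))
              (fun v _ => mul_nonneg (hI.nonneg M) (ind_nonneg _)) hvd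
            rw [ind_true hv, mul_one] at h3
            exact h3
      _ = ∑ v ∈ dd G R x y, vcov μ v := sum_comm
      _ ≤ ∑ _v ∈ dd G R x y, (1 : ℝ) := by
          refine sum_le_sum fun v hv => ?_
          simp only [dd, mem_filter, mem_univ, true_and] at hv
          refine hI.cap v hv.2 ?_
          rcases hv.1 with h | h
          · exact ⟨x, hx, h.symm⟩
          · exact ⟨y, hy, h.symm⟩
      _ = ((dd G R x y).card : ℝ) := by simp
  linarith

/-- insertion of the edge `xy` with the fraction `t` -/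
def ins (G : SimpleGraph V) (μ : Finset (Sym2 V) → ℝ) (t : ℝ) (x y : V) :
    Finset (Sym2 V) → ℝ :=
  upd μ (fun M => t * ind (nc G M x y)) (fun M => insert s(x, y) M)

section ins
variable {Q : ℝ} {R : Finset V} {μ : Finset (Sym2 V) → ℝ} (hI : Inv G Q R μ) {t : ℝ}
  (ht0 : 0 ≤ t) (ht1 : t ≤ 1) {x y : V}

lemma ins_sum (f : Finset (Sym2 V) → ℝ) :
    ∑ N, ins G μ t x y N * f N =
      ∑ M, μ M * ((1 - t * ind (nc G M x y)) * f M +
        t * ind (nc G M x y) * f (insert s(x, y) M)) := upd_sum _ _ _ _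

include hI ht0 ht1

lemma ins_nonneg (N : Finset (Sym2 V)) : 0 ≤ ins G μ t x y N := by
  refine upd_nonneg hI.nonneg (fun M => mul_nonneg ht0 (ind_nonneg _)) (fun M => ?_) N
  have h1 := ind_le_one (nc G M x y)
  have h0 := ind_nonneg (nc G M x y)
  nlinarith

omit hI ht0 ht1 in
lemma ins_ne_zero {N : Finset (Sym2 V)} (h : ins G μ t x y N ≠ 0) :
    ∃ M, μ M ≠ 0 ∧ (N = M ∨ (nc G M x y ∧ N = insert s(x, y) M)) := by
  obtain ⟨M, h1, h2⟩ := upd_ne_zero h
  refine ⟨M, h1, ?_⟩
  rcases h2 with h2 | ⟨h2, h3⟩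
  · exact Or.inl h2
  · right
    refine ⟨?_, h3⟩
    by_contra h4
    exact h2 (by rw [ind_false h4, mul_zero])

omit ht0 ht1 in
lemma ins_tot : ∑ N, ins G μ t x y N = Q := by
  have h := ins_sum (G := G) (μ := μ) (t := t) (x := x) (y := y) (fun _ => 1)
  simp only [mul_one] at h
  rw [h, ← hI.tot]
  exact sum_congr rfl fun M _ => by ring

omit hI ht0 ht1 in
lemma vtx_insert {M : Finset (Sym2 V)} {v : V} :
    vtx (insert s(x, y) M) v ↔ v = x ∨ v = y ∨ vtx M v := by
  unfold vtx
  constructor
  · rintro ⟨e, he, hv⟩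
    rcases mem_insert.1 he with rfl | he
    · rcases Sym2.mem_iff.1 hv with h | h
      · exact Or.inl h
      · exact Or.inr (Or.inl h)
    · exact Or.inr (Or.inr ⟨e, he, hv⟩)
  · rintro (rfl | rfl | ⟨e, he, hv⟩)
    · exact ⟨_, mem_insert_self _ _, Sym2.mem_mk_left _ _⟩
    · exact ⟨_, mem_insert_self _ _, Sym2.mem_mk_right _ _⟩
    · exact ⟨e, mem_insert_of_mem he, hv⟩

omit ht0 ht1 in
lemma ins_supp (hx : x ∈ R) (hy : y ∈ R) (hxy : G.Adj x y) {N : Finset (Sym2 V)}
    (h : ins G μ t x y N ≠ 0) : SM G N := by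
  obtain ⟨M, h1, h2⟩ := ins_ne_zero h
  rcases h2 with rfl | ⟨h2, rfl⟩
  · exact hI.supp _ h1
  · have hM := hI.supp M h1
    have hd := hI.dead M h1
    have key : ∀ v, vtx M v → (v ≠ x ∧ v ≠ y) ∧ ¬ G.Adj x v ∧ ¬ G.Adj y v := by
      intro v hv
      have h3 := hd v hv
      have h4 := h2 v hv
      refine ⟨⟨fun h => h3 (h ▸ hx), fun h => h3 (h ▸ hy)⟩, fun h => h4 (Or.inl h),
        fun h => h4 (Or.inr h)⟩
    refine ⟨?_, ?_⟩
    · intro e he
      rcases mem_insert.1 he with rfl | he
      · exact hxy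
      · exact hM.1 e he
    · intro e he e' he' hne a ha b hb
      rcases mem_insert.1 he with rfl | he
      · rcases mem_insert.1 he' with rfl | he'
        · exact absurd rfl hne
        · have h5 := key b ⟨e', he', hb⟩
          rcases Sym2.mem_iff.1 ha with rfl | rfl
          · exact ⟨fun h => h5.1.1 h.symm, h5.2.1⟩
          · exact ⟨fun h => h5.1.2 h.symm, h5.2.2⟩
      · rcases mem_insert.1 he' with rfl | he'
        · have h5 := key a ⟨e, he, ha⟩
          rcases Sym2.mem_iff.1 hb with rfl | rfl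
          · exact ⟨h5.1.1, fun h => h5.2.1 h.symm⟩
          · exact ⟨h5.1.2, fun h => h5.2.2 h.symm⟩
        · exact hM.2 e he e' he' hne a ha b hb

omit ht0 ht1 in
lemma ins_cov_self (hx : x ∈ R) :
    cov (ins G μ t x y) s(x, y) = t * ∑ M, μ M * ind (nc G M x y) := by
  unfold cov
  rw [ins_sum, mul_sum]
  refine sum_congr rfl fun M _ => ?_
  by_cases h0 : μ M = 0
  · simp [h0]
  have h1 : s(x, y) ∉ M := fun h => hI.dead M h0 x ⟨_, h, Sym2.mem_mk_left _ _⟩ hx
  rw [ind_false h1, ind_true (mem_insert_self _ _)]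
  ring

omit hI ht0 ht1 in
lemma ins_cov_other {e : Sym2 V} (he : e ≠ s(x, y)) : cov (ins G μ t x y) e = cov μ e := by
  unfold cov
  rw [ins_sum]
  refine sum_congr rfl fun M _ => ?_
  rw [ind_congr (show e ∈ insert s(x, y) M ↔ e ∈ M by
    rw [mem_insert]; exact ⟨fun h => h.resolve_left he, Or.inr⟩)]
  ring

omit hI ht0 ht1 in
lemma ins_vcov_other {v : V} (h1 : v ≠ x) (h2 : v ≠ y) : vcov (ins G μ t x y) v = vcov μ v := by
  unfold vcov
  rw [ins_sum]
  refine sum_congr rfl fun M _ => ?_
  rw [ind_congr (show vtx (insert s(x, y) M) v ↔ vtx M v by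
    rw [vtx_insert]; exact ⟨fun h => (h.resolve_left h1).resolve_left h2, fun h => Or.inr (Or.inr h)⟩)]
  ring

omit ht0 ht1 in
lemma ins_vcov_self (hy : y ∈ R) :
    vcov (ins G μ t x y) y = t * ∑ M, μ M * ind (nc G M x y) := by
  unfold vcov
  rw [ins_sum, mul_sum]
  refine sum_congr rfl fun M _ => ?_
  by_cases h0 : μ M = 0
  · simp [h0]
  have h1 : ¬ vtx M y := fun h => hI.dead M h0 y h hy
  rw [ind_false h1, ind_true (vtx_insert.2 (Or.inr (Or.inl rfl)))]
  ring

omit ht0 ht1 in
lemma vcov_alive {v : V} (hv : v ∈ R) : vcov μ v = 0 := by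
  unfold vcov
  refine sum_eq_zero fun M _ => ?_
  by_cases h0 : μ M = 0
  · simp [h0]
  rw [ind_false fun h => hI.dead M h0 v h hv, mul_zero]

end ins

/-- **One step of the process.** -/
lemma step {Q : ℝ} {R : Finset V} {μ : Finset (Sym2 V) → ℝ} (hI : Inv G Q R μ) {x : V}
    (hx : x ∈ R) : ∃ μ' : Finset (Sym2 V) → ℝ, Inv G Q (nxt G R x) μ' ∧
      (∀ e, (∀ y ∈ nbR G R x, e ≠ s(x, y)) → cov μ' e = cov μ e) ∧
      ∀ y ∈ nbR G R x, cov μ' s(x, y) = om G Q R x y := by
  have hsub : nxt G R x ⊆ R := filter_subset _ _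
  have hxn : x ∉ nxt G R x := by simp [nxt]
  rcases (nbR G R x).eq_empty_or_nonempty with h0 | hne
  · refine ⟨μ, ⟨hI.nonneg, hI.supp, ?_, ?_, hI.tot⟩, fun e _ => rfl, ?_⟩
    · intro M hM v hv hvR
      exact hI.dead M hM v hv (hsub hvR)
    · intro v hv hu
      by_cases hvR : v ∈ R
      · have := vcov_alive hI hvR
        rw [this]; exact zero_le_one
      · obtain ⟨u, hu, huv⟩ := hu
        exact hI.cap v hvR ⟨u, hsub hu, huv⟩
    · rw [h0]; intro y hy; simp at hy
  · have hcpos : (0 : ℝ) < (nbR G R x).card := by exact_mod_cast card_pos.2 hne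
    have hmem : ∀ y ∈ nbR G R x, y ∈ R ∧ G.Adj x y := fun y hy => by
      simpa [nbR] using hy
    -- the fractions
    set m : V → ℝ := fun y => ∑ M, μ M * ind (nc G M x y) with hm
    have hm0 : ∀ y, 0 ≤ m y := fun y => sum_nonneg fun M _ => mul_nonneg (hI.nonneg M) (ind_nonneg _)
    set t : V → ℝ := fun y => om G Q R x y * (nbR G R x).card / m y with ht
    have hkey : ∀ y ∈ nbR G R x, 0 ≤ t y ∧ t y ≤ 1 ∧ t y * m y = om G Q R x y * (nbR G R x).card := by
      intro y hy
      have h1 := hI.nc_mass hx (hmem y hy).1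
      have h2 : om G Q R x y * (nbR G R x).card ≤ max 0 (Q - (dd G R x y).card) := by
        have h3 : om G Q R x y ≤ max 0 (Q - (dd G R x y).card) / (nbR G R x).card :=
          min_le_right _ _
        calc om G Q R x y * (nbR G R x).card
            ≤ max 0 (Q - (dd G R x y).card) / (nbR G R x).card * (nbR G R x).card :=
              mul_le_mul_of_nonneg_right h3 hcpos.le
          _ = max 0 (Q - (dd G R x y).card) := div_mul_cancel₀ _ hcpos.ne'
      have h4 : om G Q R x y * (nbR G R x).card ≤ m y := le_trans h2 (max_le (hm0 y) h1)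
      have h5 : 0 ≤ om G Q R x y * (nbR G R x).card := mul_nonneg (om_nonneg G Q R x y) hcpos.le
      rcases (hm0 y).eq_or_lt with h6 | h6
      · have h7 : om G Q R x y * (nbR G R x).card = 0 := le_antisymm (by rw [h6]; exact h4) h5
        have h8 : t y = 0 := by simp only [ht]; rw [h7, zero_div]
        rw [h8, h7]
        exact ⟨le_rfl, zero_le_one, zero_mul _⟩
      · refine ⟨div_nonneg h5 h6.le, ?_, ?_⟩
        · simp only [ht]; rw [div_le_one h6]; exact h4
        · simp only [ht]; exact div_mul_cancel₀ _ h6.ne'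
    refine ⟨avg (nbR G R x) (fun y => ins G μ (t y) x y), ⟨?_, ?_, ?_, ?_, ?_⟩, ?_, ?_⟩
    · exact avg_nonneg fun y hy N => ins_nonneg hI (hkey y hy).1 (hkey y hy).2.1 N
    · intro N hN
      obtain ⟨y, hy, h⟩ := avg_ne_zero hN
      exact ins_supp hI hx (hmem y hy).1 (hmem y hy).2 h
    · intro N hN v hv hvR
      obtain ⟨y, hy, h⟩ := avg_ne_zero hN
      obtain ⟨M, h1, h2⟩ := ins_ne_zero h
      rcases h2 with rfl | ⟨_, rfl⟩
      · exact hI.dead N h1 v hv (hsub hvR)
      · rcases vtx_insert.1 hv with rfl | rfl | hv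
        · exact hxn hvR
        · have := (mem_filter.1 hvR).2.2
          exact this (hmem v hy).2
        · exact hI.dead M h1 v hv (hsub hvR)
    · intro v hv hu
      unfold vcov
      rw [avg_sum, div_le_one hcpos]
      -- at a captured vertex the mass is its weight
      by_cases hvR : v ∈ R
      · by_cases hvx : v = x
        · obtain ⟨u, hu, huv⟩ := hu
          subst hvx
          exact absurd huv (mem_filter.1 hu).2.2
        · have hadj : G.Adj x v := by
            by_contra h
            exact hv (mem_filter.2 ⟨hvR, hvx, h⟩)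
          have hvS : v ∈ nbR G R x := mem_filter.2 ⟨hvR, hadj⟩
          rw [sum_eq_single_of_mem v hvS]
          · have h1 := ins_vcov_self hI (t := t v) (x := x) hvR
            unfold vcov at h1
            rw [h1]
            have h2 := (hkey v hvS).2.2
            simp only [hm] at h2
            rw [h2]
            calc om G Q R x v * (nbR G R x).card ≤ 1 * (nbR G R x).card :=
                  mul_le_mul_of_nonneg_right (om_le_one G Q R x v) hcpos.le
              _ = (nbR G R x).card := one_mul _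
          · intro y _ hyv
            have h1 := ins_vcov_other (G := G) (μ := μ) (t := t y) (x := x) (y := y) (v := v) hvx
              (Ne.symm hyv)
            unfold vcov at h1
            rw [h1]
            exact vcov_alive hI hvR
      · have h1 : ∀ y ∈ nbR G R x, ∑ N, ins G μ (t y) x y N * ind (vtx N v) ≤ 1 := by
          intro y hy
          have h2 := ins_vcov_other (G := G) (μ := μ) (t := t y) (x := x) (y := y) (v := v)
            (fun h => hvR (h ▸ hx)) (fun h => hvR (h ▸ (hmem y hy).1))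
          unfold vcov at h2
          rw [h2]
          obtain ⟨u, hu, huv⟩ := hu
          exact hI.cap v hvR ⟨u, hsub hu, huv⟩
        calc ∑ y ∈ nbR G R x, ∑ N, ins G μ (t y) x y N * ind (vtx N v)
            ≤ ∑ _y ∈ nbR G R x, (1 : ℝ) := sum_le_sum h1
          _ = (nbR G R x).card := by simp
    · have h1 := avg_sum (nbR G R x) (fun y => ins G μ (t y) x y) (fun _ => 1)
      simp only [mul_one] at h1
      rw [h1, sum_congr rfl fun y hy => ins_tot hI, sum_const, nsmul_eq_mul,
        mul_div_cancel_left₀ _ hcpos.ne']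
    · intro e he
      unfold cov
      rw [avg_sum]
      have h1 : ∀ y ∈ nbR G R x, ∑ N, ins G μ (t y) x y N * ind (e ∈ N) =
          ∑ M, μ M * ind (e ∈ M) := by
        intro y hy
        have h2 := ins_cov_other (G := G) (μ := μ) (t := t y) (he y hy)
        unfold cov at h2
        exact h2
      rw [sum_congr rfl h1, sum_const, nsmul_eq_mul, mul_div_cancel_left₀ _ hcpos.ne']
    · intro y hy
      unfold cov
      rw [avg_sum, sum_eq_single_of_mem y hy]
      · have h1 := ins_cov_self hI (t := t y) (y := y) hx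
        unfold cov at h1
        rw [h1]
        have h2 := (hkey y hy).2.2
        simp only [hm] at h2
        rw [h2, mul_div_cancel_right₀ _ hcpos.ne']
      · intro z hz hzy
        have hne : s(x, y) ≠ s(x, z) := by
          intro h
          have h3 := Sym2.eq_iff.1 h
          rcases h3 with h3 | h3
          · exact hzy h3.2.symm
          · have h4 := (hmem z hz).2
            rw [← h3.1] at h4
            exact G.loopless.irrefl _ h4
        have h1 := ins_cov_other (G := G) (μ := μ) (t := t z) (x := x) (y := z) hne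
        unfold cov at h1
        rw [h1]
        refine sum_eq_zero fun M _ => ?_
        by_cases h0 : μ M = 0
        · simp [h0]
        rw [ind_false fun h => hI.dead M h0 x ⟨_, h, Sym2.mem_mk_left _ _⟩ hx, mul_zero]

variable (G)

/-- The guaranteed coverage of the edge `xy` in the process started at `R`. -/
def C (Q : ℝ) : ℕ → Finset V → V → V → ℝ
  | 0, _, _, _ => 0
  | n + 1, R, x, y => (om G Q R x y + om G Q R y x +
      ∑ u ∈ R.filter (fun u => ¬ G.Adj x u ∧ ¬ G.Adj y u), C Q n (nxt G R u) x y) / R.card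

variable {G}

lemma card_nxt_lt {R : Finset V} {x : V} (hx : x ∈ R) : (nxt G R x).card < R.card :=
  card_lt_card ((filter_subset _ _).ssubset_of_mem_notMem hx (by simp))

/-- **The whole process.** -/
theorem run (Q : ℝ) (n : ℕ) : ∀ (R : Finset V) (μ : Finset (Sym2 V) → ℝ), R.card ≤ n →
    Inv G Q R μ → ∃ μ' : Finset (Sym2 V) → ℝ, (∀ M, 0 ≤ μ' M) ∧ (∀ M, μ' M ≠ 0 → SM G M) ∧
      ∑ M, μ' M = Q ∧ (∀ e : Sym2 V, (∃ v ∈ e, v ∉ R) → cov μ e ≤ cov μ' e) ∧
      ∀ x ∈ R, ∀ y ∈ R, G.Adj x y → C G Q n R x y ≤ cov μ' s(x, y) := by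
  induction n with
  | zero =>
    intro R μ hR hI
    refine ⟨μ, hI.nonneg, hI.supp, hI.tot, fun _ _ => le_rfl, ?_⟩
    intro x hx
    have : R = ∅ := card_eq_zero.1 (Nat.le_zero.1 hR)
    rw [this] at hx
    simp at hx
  | succ n ih =>
    intro R μ hR hI
    rcases R.eq_empty_or_nonempty with h0 | hne
    · refine ⟨μ, hI.nonneg, hI.supp, hI.tot, fun _ _ => le_rfl, ?_⟩
      intro x hx
      rw [h0] at hx
      simp at hx
    have hcpos : (0 : ℝ) < R.card := by exact_mod_cast card_pos.2 hne
    have hex : ∀ x, ∃ μ' : Finset (Sym2 V) → ℝ, x ∈ R → (∀ M, 0 ≤ μ' M) ∧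
        (∀ M, μ' M ≠ 0 → SM G M) ∧ ∑ M, μ' M = Q ∧
        (∀ e : Sym2 V, (∃ v ∈ e, v ∉ R) → cov μ e ≤ cov μ' e) ∧
        (∀ y ∈ nbR G R x, om G Q R x y ≤ cov μ' s(x, y)) ∧
        ∀ a ∈ nxt G R x, ∀ b ∈ nxt G R x, G.Adj a b →
          C G Q n (nxt G R x) a b ≤ cov μ' s(a, b) := by
      intro x
      by_cases hx : x ∈ R
      swap
      · exact ⟨μ, fun h => absurd h hx⟩
      obtain ⟨μ1, hI1, h1, h2⟩ := step hI hx
      obtain ⟨μ2, g1, g2, g3, g4, g5⟩ := ih (nxt G R x) μ1
        (by have := card_nxt_lt (G := G) hx; omega) hI1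
      refine ⟨μ2, fun _ => ⟨g1, g2, g3, ?_, ?_, g5⟩⟩
      · intro e he
        obtain ⟨v, hv, hvR⟩ := he
        rw [← h1 e ?_]
        · exact g4 e ⟨v, hv, fun h => hvR ((filter_subset _ _) h)⟩
        · intro y hy h
          rw [h] at hv
          rcases Sym2.mem_iff.1 hv with rfl | rfl
          · exact hvR hx
          · exact hvR (mem_filter.1 hy).1
      · intro y hy
        rw [← h2 y hy]
        exact g4 _ ⟨x, Sym2.mem_mk_left _ _, by simp [nxt]⟩
    choose F hF using hex
    refine ⟨avg R F, ?_, ?_, ?_, ?_, ?_⟩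
    · exact avg_nonneg fun x hx N => (hF x hx).1 N
    · intro M hM
      obtain ⟨x, hx, h⟩ := avg_ne_zero hM
      exact (hF x hx).2.1 M h
    · have h1 := avg_sum R F (fun _ => 1)
      simp only [mul_one] at h1
      rw [h1, sum_congr rfl fun x hx => (hF x hx).2.2.1, sum_const, nsmul_eq_mul,
        mul_div_cancel_left₀ _ hcpos.ne']
    · intro e he
      have h1 := avg_sum R F (fun N => ind (e ∈ N))
      unfold cov
      rw [h1, le_div_iff₀ hcpos]
      have h2 : ∑ _x ∈ R, (∑ M, μ M * ind (e ∈ M)) ≤ ∑ x ∈ R, ∑ N, F x N * ind (e ∈ N) :=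
        sum_le_sum fun x hx => (hF x hx).2.2.2.1 e he
      rw [sum_const, nsmul_eq_mul] at h2
      linarith
    · intro x hx y hy hxy
      have h1 := avg_sum R F (fun N => ind (s(x, y) ∈ N))
      unfold cov
      rw [h1]
      simp only [C]
      refine div_le_div_of_nonneg_right ?_ hcpos.le
      -- split the sum over `R`
      set f : V → ℝ := fun u => ∑ N, F u N * ind (s(x, y) ∈ N) with hf
      have hf0 : ∀ u ∈ R, 0 ≤ f u := fun u hu =>
        sum_nonneg fun N _ => mul_nonneg ((hF u hu).1 N) (ind_nonneg _)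
      have hxy' : x ≠ y := G.ne_of_adj hxy
      have hfx : om G Q R x y ≤ f x :=
        (hF x hx).2.2.2.2.1 y (mem_filter.2 ⟨hy, hxy⟩)
      have hfy : om G Q R y x ≤ f y := by
        have h2 := (hF y hy).2.2.2.2.1 x (mem_filter.2 ⟨hx, hxy.symm⟩)
        rw [Sym2.eq_swap] at h2
        exact h2
      have hfu : ∀ u ∈ R.filter (fun u => ¬ G.Adj x u ∧ ¬ G.Adj y u),
          C G Q n (nxt G R u) x y ≤ f u := by
        intro u hu
        obtain ⟨huR, h2, h3⟩ := mem_filter.1 hu
        refine (hF u huR).2.2.2.2.2 x ?_ y ?_ hxy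
        · exact mem_filter.2 ⟨hx, fun h => h3 (h ▸ hxy.symm), fun h => h2 h.symm⟩
        · exact mem_filter.2 ⟨hy, fun h => h2 (h ▸ hxy), fun h => h3 h.symm⟩
      have hsplit : f x + f y + ∑ u ∈ R.filter (fun u => ¬ G.Adj x u ∧ ¬ G.Adj y u), f u ≤
          ∑ u ∈ R, f u := by
        have hdisj : Disjoint ({x, y} : Finset V)
            (R.filter (fun u => ¬ G.Adj x u ∧ ¬ G.Adj y u)) := by
          rw [disjoint_left]
          intro u hu hu2
          obtain ⟨_, h2, h3⟩ := mem_filter.1 hu2
          rcases mem_insert.1 hu with rfl | hu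
          · exact h3 hxy.symm
          · rw [mem_singleton] at hu
            subst hu
            exact h2 hxy
        have h4 : ∑ u ∈ ({x, y} : Finset V) ∪ R.filter (fun u => ¬ G.Adj x u ∧ ¬ G.Adj y u), f u =
            f x + f y + ∑ u ∈ R.filter (fun u => ¬ G.Adj x u ∧ ¬ G.Adj y u), f u := by
          rw [sum_union hdisj, sum_pair hxy']
        rw [← h4]
        refine sum_le_sum_of_subset_of_nonneg ?_ fun u hu _ => hf0 u hu
        intro u hu
        rcases mem_union.1 hu with hu | hu
        · rcases mem_insert.1 hu with rfl | hu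
          · exact hx
          · rw [mem_singleton] at hu; subst hu; exact hy
        · exact (mem_filter.1 hu).1
      have h5 := sum_le_sum hfu
      linarith

end

end MP433.FT
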