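import Mathlib

set_option autoImplicit false

/-!
# Moving mass on a finite type (MP_433a35_co)
-/

namespace MP433.FT

open Finset

noncomputable section

open Classical in
/-- indicator of a proposition -/
def ind (p : Prop) : ℝ := if p then 1 else 0

lemma ind_true {p : Prop} (h : p) : ind p = 1 := by simp [ind, h]
lemma ind_false {p : Prop} (h : ¬ p) : ind p = 0 := by simp [ind, h]
lemma ind_nonneg (p : Prop) : 0 ≤ ind p := by unfold ind; split_ifs <;> norm_num
lemma ind_le_one (p : Prop) : ind p ≤ 1 := by unfold ind; split_ifs <;> norm_num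
lemma ind_congr {p q : Prop} (h : p ↔ q) : ind p = ind q := by
  have : p = q := propext h
  rw [this]

variable {α : Type*} [Fintype α]

lemma sum_ind_eq (a : α) (f : α → ℝ) : ∑ N, ind (N = a) * f N = f a := by
  rw [sum_eq_single a]
  · rw [ind_true rfl, one_mul]
  · intro b _ hb; rw [ind_false hb, zero_mul]
  · intro h; exact absurd (mem_univ a) h

/-- The part `lam M` of the mass at `M` is moved to `T M`. -/
def upd (μ lam : α → ℝ) (T : α → α) (N : α) : ℝ :=
  ∑ M, μ M * ((1 - lam M) * ind (N = M) + lam M * ind (N = T M))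

lemma upd_sum (μ lam : α → ℝ) (T : α → α) (f : α → ℝ) :
    ∑ N, upd μ lam T N * f N = ∑ M, μ M * ((1 - lam M) * f M + lam M * f (T M)) := by
  unfold upd
  simp only [sum_mul]
  rw [sum_comm]
  refine sum_congr rfl fun M _ => ?_
  have h1 : ∀ N, μ M * ((1 - lam M) * ind (N = M) + lam M * ind (N = T M)) * f N =
      μ M * (1 - lam M) * (ind (N = M) * f N) + μ M * lam M * (ind (N = T M) * f N) := by
    intro N; ring
  simp only [h1, sum_add_distrib, ← mul_sum, sum_ind_eq]
  ring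

lemma upd_nonneg {μ lam : α → ℝ} {T : α → α} (hμ : ∀ M, 0 ≤ μ M) (h0 : ∀ M, 0 ≤ lam M)
    (h1 : ∀ M, lam M ≤ 1) (N : α) : 0 ≤ upd μ lam T N := by
  refine sum_nonneg fun M _ => mul_nonneg (hμ M) (add_nonneg ?_ ?_)
  · exact mul_nonneg (by linarith [h1 M]) (ind_nonneg _)
  · exact mul_nonneg (h0 M) (ind_nonneg _)

lemma upd_ne_zero {μ lam : α → ℝ} {T : α → α} {N : α} (h : upd μ lam T N ≠ 0) :
    ∃ M, μ M ≠ 0 ∧ (N = M ∨ (lam M ≠ 0 ∧ N = T M)) := by
  obtain ⟨M, _, hM⟩ := exists_ne_zero_of_sum_ne_zero h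
  refine ⟨M, left_ne_zero_of_mul hM, ?_⟩
  by_cases h1 : N = M
  · exact Or.inl h1
  · right
    have h2 := right_ne_zero_of_mul hM
    rw [ind_false h1, mul_zero, zero_add] at h2
    refine ⟨left_ne_zero_of_mul h2, ?_⟩
    by_contra h3
    exact right_ne_zero_of_mul h2 (ind_false h3)

variable {ι : Type*}

/-- Average of finitely many mass distributions. -/
def avg (A : Finset ι) (F : ι → α → ℝ) (N : α) : ℝ := (∑ i ∈ A, F i N) / A.card

lemma avg_sum (A : Finset ι) (F : ι → α → ℝ) (f : α → ℝ) :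
    ∑ N, avg A F N * f N = (∑ i ∈ A, ∑ N, F i N * f N) / A.card := by
  unfold avg
  rw [sum_comm, sum_div]
  refine sum_congr rfl fun N _ => ?_
  rw [← sum_mul]
  ring

lemma avg_nonneg {A : Finset ι} {F : ι → α → ℝ} (h : ∀ i ∈ A, ∀ N, 0 ≤ F i N) (N : α) :
    0 ≤ avg A F N :=
  div_nonneg (sum_nonneg fun i hi => h i hi N) (Nat.cast_nonneg _)

lemma avg_ne_zero {A : Finset ι} {F : ι → α → ℝ} {N : α} (h : avg A F N ≠ 0) :
    ∃ i ∈ A, F i N ≠ 0 := by
  have h1 : ∑ i ∈ A, F i N ≠ 0 := by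
    intro h2; exact h (by unfold avg; rw [h2, zero_div])
  exact exists_ne_zero_of_sum_ne_zero h1

end

end MP433.FT
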